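import Pool.Agent.Helper50.LF.Sent
import Pool.Agent.Helper50.LF.RealF
import Pool.Agent.Helper50.LF.Data
import Pool.Agent.Helper45.LF.Real
import Pool.Agent.Helper32.LF.Tra
import Pool.Agent.Helper63.LF.Dom
import Pool.Agent.Helper18.LF.ScaleF
import Pool.Agent.Helper36.LF.ScaleH
import Pool.Agent.Helper15.LF.NonFre
import Pool.Agent.Helper9.LF.Fre

/-!
# A Frechet b-scale and a non-Frechet b-scale in one model of ZFC

There is a countable transitive model of ZFC which contains a b-scale whose Dow space is
Frechet-Urysohn and a b-scale whose Dow space is not. The notions of the model are the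
relativised notions `BScaleIn`, `FrechetIn`, `RobustIn`; for the structure consisting of all sets
of natural numbers and of all sets of them they are the notions of the problem.
-/

set_option autoImplicit false

namespace Pool.Agent.Results.MP_743798_lc.CoexistenceModel

open Set Pool.Agent.Helper50.LF
open Pool.Agent.Helper32.HB (IsTransModelZFC realsP setsP)

/-- **Positive answer to Q1.** There is a countable transitive model `M` of ZFC and there are
families `B₁, B₂` in `M` which are b-scales in `M` (both unbounded on every infinite set of nodes)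
such that, in `M`, the Dow space of `B₁` is Frechet-Urysohn and the Dow space of `B₂` is not. The
second part of the theorem justifies the relativised notions. -/
theorem result :
    (∃ M : Set ZFSet.{0}, M.Countable ∧ IsTransModelZFC M ∧
      (∃ B : Set (Node → ℕ), BScaleIn (realsP M) (setsP M) B ∧ RobustIn (realsP M) B ∧
        FrechetIn (realsP M) B) ∧
      ∃ B : Set (Node → ℕ), BScaleIn (realsP M) (setsP M) B ∧ RobustIn (realsP M) B ∧
        ¬ FrechetIn (realsP M) B) ∧
    ∀ B : Set (Node → ℕ), (BScaleIn univ univ B ↔ IsBScale B) ∧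
      (FrechetIn univ B ↔ @FrechetUrysohnSpace Node (dow B)) ∧
      (RobustIn univ B ↔ ∀ X : Set Node, X.Infinite → ∀ g : Node → ℕ,
        ∃ f ∈ B, ¬ {s ∈ X | ¬ f s ≤ g s}.Finite) := by
  refine ⟨?_, fun B => ⟨bScaleIn_univ B, frechetIn_univ B, robustIn_univ B⟩⟩
  obtain ⟨P, _, _, Ω, _, c, a, br, hccc, hb, hc, hp, ht⟩ := exists_data
  obtain ⟨β₀, hc', hl⟩ := exists_shift hccc hc
  exact exists_model (scaleF hccc hb hc) (scaleH hccc hb hc' hl ht) (fre hccc hb hc hp)
    (nonFre hc' hl ht)

end Pool.Agent.Results.MP_743798_lc.CoexistenceModel
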