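import Mathlib

/-!
# Non-Frechet b-scales exist whenever p is less than b

Dow spaces of b-scales on the tree of finite sequences of natural numbers.
-/

open Cardinal Filter Set

namespace Pool.Agent.Results.MP_743798_lc.NonFrechetBelowB

/-- Nodes of the tree: finite sequences of natural numbers. -/
abbrev Node := List ℕ

/-- The cone of all extensions of `s`. -/
def cone (s : Node) : Set Node := {t | ∃ u, t = s ++ u}

/-- Increasing functions on the tree. -/
def Increasing (f : Node → ℕ) : Prop :=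
  (∀ s u, u ≠ [] → f s < f (s ++ u)) ∧ ∀ s n m, n < m → f (s ++ [n]) < f (s ++ [m])

/-- Eventual domination on the tree. -/
def LeStar (f g : Node → ℕ) : Prop := {s | ¬ f s ≤ g s}.Finite

/-- The bounding number. -/
noncomputable def bnum : Cardinal.{0} :=
  sInf {κ | ∃ F : Set (ℕ → ℕ), #F = κ ∧ ∀ g : ℕ → ℕ, ∃ f ∈ F, ¬ {n | ¬ f n ≤ g n}.Finite}

/-- The pseudo-intersection number. -/
noncomputable def pnum : Cardinal.{0} :=
  sInf {κ | ∃ A : Set (Set ℕ), #A = κ ∧ (∀ F ⊆ A, F.Finite → (⋂₀ F).Infinite) ∧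
    ¬ ∃ D : Set ℕ, D.Infinite ∧ ∀ X ∈ A, (D \ X).Finite}

/-- b-scales: families of increasing functions, unbounded, well-ordered by eventual domination
in order type `bnum`, with cofinally many members taking a large value at the root. -/
structure IsBScale (B : Set (Node → ℕ)) : Prop where
  increasing : ∀ f ∈ B, Increasing f
  unbounded : ¬ ∃ g : Node → ℕ, ∀ f ∈ B, LeStar f g
  orderType : ∃ e : bnum.ord.ToType → (Node → ℕ), Set.range e = B ∧
    ∀ x y, x ≤ y ↔ LeStar (e x) (e y)
  root : ∀ n : ℕ, ∀ f ∈ B, ∃ g ∈ B, LeStar f g ∧ n < g []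

/-- The subtree in which every node `s` loses exactly the successor `f s`. -/
def U (f : Node → ℕ) : Set Node := {s | ∀ i, ∀ h : i < s.length, s[i] ≠ f (s.take i)}

/-- The topology of the Dow space of `B`. -/
def dow (B : Set (Node → ℕ)) : TopologicalSpace Node :=
  TopologicalSpace.generateFrom
    ({V | ∃ s, V = cone s} ∪ {V | ∃ s, V = (cone s)ᶜ} ∪ {V | ∃ f ∈ B, V = U f})

/-! ### The bounding number -/

lemma bnum_mem : ∃ F : Set (ℕ → ℕ), #F = bnum ∧
    ∀ g : ℕ → ℕ, ∃ f ∈ F, ¬ {n | ¬ f n ≤ g n}.Finite := by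
  have : bnum ∈ {κ : Cardinal.{0} | ∃ F : Set (ℕ → ℕ), #F = κ ∧
      ∀ g : ℕ → ℕ, ∃ f ∈ F, ¬ {n | ¬ f n ≤ g n}.Finite} := by
    apply csInf_mem
    refine ⟨#(Set.univ : Set (ℕ → ℕ)), Set.univ, rfl, fun g => ⟨fun n => g n + 1, trivial, ?_⟩⟩
    have : {n | ¬ (fun n => g n + 1) n ≤ g n} = Set.univ := by
      ext n; simp
    rw [this]
    exact Set.infinite_univ
  exact this

lemma bounded_of_lt (F : Set (ℕ → ℕ)) (h : #F < bnum) :
    ∃ g : ℕ → ℕ, ∀ f ∈ F, {n | ¬ f n ≤ g n}.Finite := by
  by_contra hc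
  have := notMem_of_lt_csInf' h
  refine this ⟨F, rfl, fun g => ?_⟩
  by_contra hg
  apply hc
  refine ⟨g, fun f hf => ?_⟩
  by_contra hfin
  exact hg ⟨f, hf, hfin⟩

lemma aleph0_lt_bnum : ℵ₀ < bnum := by
  by_contra hc
  push Not at hc
  obtain ⟨F, hF, hunb⟩ := bnum_mem
  have hcount : F.Countable := by
    rw [← Cardinal.le_aleph0_iff_set_countable, hF]; exact hc
  have hne : F.Nonempty := by
    obtain ⟨f, hf, -⟩ := hunb 0
    exact ⟨f, hf⟩
  obtain ⟨e, he⟩ := hcount.exists_eq_range hne
  obtain ⟨f, hf, hf2⟩ := hunb (fun n => ∑ i ∈ Finset.range (n + 1), e i n)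
  rw [he] at hf
  obtain ⟨i, rfl⟩ := hf
  apply hf2
  apply (Set.finite_lt_nat i).subset
  intro n hn
  simp only [Set.mem_ofPred_eq, not_le] at hn ⊢
  by_contra hle
  push Not at hle
  have : e i n ≤ ∑ j ∈ Finset.range (n + 1), e j n :=
    Finset.single_le_sum (f := fun j => e j n) (fun _ _ => Nat.zero_le _)
      (Finset.mem_range.2 (by omega))
  omega

/-- The index set. -/
abbrev I := bnum.ord.ToType

lemma mk_I : #I = bnum := Cardinal.mk_ord_toType _

lemma exists_c : ∃ c : I → ℕ, ∀ (x : I) (n : ℕ), ∃ y, x ≤ y ∧ n < c y := by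
  have h1 : #(I × ℕ) = #I := by
    rw [Cardinal.mk_prod, Cardinal.lift_id, Cardinal.lift_id, mk_I, Cardinal.mk_nat]
    exact Cardinal.mul_aleph0_eq aleph0_lt_bnum.le
  obtain ⟨e⟩ := Cardinal.eq.1 h1
  refine ⟨fun x => (e.symm x).2, fun x n => ?_⟩
  by_contra hc
  push Not at hc
  have hsub : Set.range (fun y : I => e (y, n + 1)) ⊆ Set.Iio x := by
    rintro _ ⟨y, rfl⟩
    by_contra hy
    have := hc (e (y, n + 1)) (not_lt.1 hy)
    simp at this
  have h2 : #(Set.range (fun y : I => e (y, n + 1))) = #I :=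
    Cardinal.mk_range_eq _ (fun a b hab => by simpa using e.injective hab)
  have h3 := Cardinal.mk_le_mk_of_subset hsub
  rw [h2, mk_I] at h3
  exact absurd (Cardinal.mk_Iio_toType_ord_lt x) (not_lt.2 h3)

/-! ### A scale -/

/-- A bound of a family if there is one. -/
noncomputable def bd (F : Set (ℕ → ℕ)) : ℕ → ℕ :=
  open Classical in
  if h : ∃ g : ℕ → ℕ, ∀ f ∈ F, {n | ¬ f n ≤ g n}.Finite then h.choose else 0

lemma bd_spec (F : Set (ℕ → ℕ)) (h : #F < bnum) : ∀ f ∈ F, {n | ¬ f n ≤ bd F n}.Finite := by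
  have := bounded_of_lt F h
  rw [bd, dif_pos this]
  exact this.choose_spec

/-- The recursive definition of the scale. -/
noncomputable def phi (c : I → ℕ) (e : I → ℕ → ℕ) : I → ℕ → ℕ :=
  (wellFounded_lt (α := I)).fix fun x ih k =>
    c x + ∑ i ∈ Finset.range (k + 1), (bd {f | ∃ (y : I) (hy : y < x), f = ih y hy} i + e x i + 6)

lemma phi_eq (c : I → ℕ) (e : I → ℕ → ℕ) (x : I) (k : ℕ) :
    phi c e x k = c x + ∑ i ∈ Finset.range (k + 1), (bd (phi c e '' Set.Iio x) i + e x i + 6) := by
  have h : {f : ℕ → ℕ | ∃ (y : I) (_ : y < x), f = phi c e y} = phi c e '' Set.Iio x := by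
    ext f
    constructor
    · rintro ⟨y, hy, rfl⟩; exact ⟨y, hy, rfl⟩
    · rintro ⟨y, hy, rfl⟩; exact ⟨y, hy, rfl⟩
  rw [← h]
  conv_lhs => rw [phi, WellFounded.fix_eq]
  rfl

lemma phi_strictMono (c : I → ℕ) (e : I → ℕ → ℕ) (x : I) : StrictMono (phi c e x) := by
  apply strictMono_nat_of_lt_succ
  intro k
  rw [phi_eq, phi_eq, Finset.sum_range_succ _ (k + 1)]
  omega

lemma phi_ge (c : I → ℕ) (e : I → ℕ → ℕ) (x : I) (k : ℕ) : 3 * k + 6 ≤ phi c e x k := by
  induction k with
  | zero => rw [phi_eq]; simp; omega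
  | succ k ih =>
    have h : phi c e x (k + 1) = phi c e x k + (bd (phi c e '' Set.Iio x) (k + 1) + e x (k + 1) + 6) := by
      rw [phi_eq, phi_eq, Finset.sum_range_succ _ (k + 1)]; ring
    omega

lemma phi_root (c : I → ℕ) (e : I → ℕ → ℕ) (x : I) : c x ≤ phi c e x 0 := by
  rw [phi_eq]; omega

lemma phi_ge_term (c : I → ℕ) (e : I → ℕ → ℕ) (x : I) (k : ℕ) :
    bd (phi c e '' Set.Iio x) k + e x k + 6 ≤ phi c e x k := by
  rw [phi_eq, Finset.sum_range_succ]
  omega

lemma phi_lt (c : I → ℕ) (e : I → ℕ → ℕ) {x y : I} (h : y < x) :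
    {k | ¬ phi c e y k < phi c e x k}.Finite := by
  have hcard : #(phi c e '' Set.Iio x) < bnum :=
    Cardinal.mk_image_le.trans_lt (Cardinal.mk_Iio_toType_ord_lt x)
  apply (bd_spec _ hcard (phi c e y) ⟨y, h, rfl⟩).subset
  intro k hk
  simp only [Set.mem_ofPred_eq] at hk ⊢
  have := phi_ge_term c e x k
  omega

/-- All we need about the scale. -/
structure IsScale (φ : I → ℕ → ℕ) : Prop where
  mono : ∀ x, StrictMono (φ x)
  ge : ∀ x k, 3 * k + 6 ≤ φ x k
  lt : ∀ {x y}, y < x → {k | ¬ φ y k < φ x k}.Finite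
  unb : ∀ g : ℕ → ℕ, ∃ x, ¬ {k | ¬ φ x k ≤ g k}.Finite
  root : ∀ x n, ∃ y, x ≤ y ∧ n < φ y 0

lemma exists_scale : ∃ φ : I → ℕ → ℕ, IsScale φ := by
  obtain ⟨c, hc⟩ := exists_c
  obtain ⟨F, hF, hunb⟩ := bnum_mem
  obtain ⟨e⟩ := Cardinal.eq.1 (mk_I.trans hF.symm)
  refine ⟨phi c (fun x => (e x).1), phi_strictMono _ _, phi_ge _ _, fun h => phi_lt _ _ h, ?_, ?_⟩
  · intro g
    obtain ⟨f, hf, hf2⟩ := hunb g
    refine ⟨e.symm ⟨f, hf⟩, fun hfin => hf2 (hfin.subset ?_)⟩
    intro k hk
    have := phi_ge_term c (fun x => (e x).1) (e.symm ⟨f, hf⟩) k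
    simp only [Equiv.apply_symm_apply] at this
    simp only [Set.mem_ofPred_eq] at hk ⊢
    omega
  · intro x n
    obtain ⟨y, hy, hn⟩ := hc x n
    exact ⟨y, hy, hn.trans_le (phi_root _ _ _)⟩

/-! ### Weights of nodes and greedy paths -/

/-- The weight of a node. -/
def N (t : Node) : ℕ := t.length + t.sum

lemma N_append (s u : Node) : N (s ++ u) = N s + N u := by
  simp [N]; ring

lemma N_pos {u : Node} (h : u ≠ []) : 0 < N u := by
  have := List.length_pos_iff.2 h
  simp [N]; omega

lemma N_finite (k : ℕ) : {t : Node | N t ≤ k}.Finite := by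
  induction k with
  | zero =>
    apply (Set.finite_singleton ([] : Node)).subset
    intro t ht
    by_contra h
    have := N_pos (u := t) (by simpa using h)
    simp only [Set.mem_ofPred_eq] at ht
    omega
  | succ k ih =>
    have : {t : Node | N t ≤ k + 1} ⊆
        insert [] (⋃ n ∈ Set.Iic k, (List.cons n) '' {t : Node | N t ≤ k}) := by
      intro t ht
      cases t with
      | nil => simp
      | cons n t =>
        right
        have h1 : N (n :: t) = N t + 1 + n := by simp [N]; ring
        simp only [Set.mem_ofPred_eq, h1] at ht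
        simp only [Set.mem_iUnion]
        exact ⟨n, by simp only [Set.mem_Iic]; omega, t, by simp only [Set.mem_ofPred_eq]; omega, rfl⟩
    refine Set.Finite.subset (Set.Finite.insert _ ?_) this
    exact (Set.finite_Iic k).biUnion fun n _ => ih.image _

lemma N_finite_preimage {K : Set ℕ} (hK : K.Finite) : {t : Node | N t ∈ K}.Finite := by
  obtain ⟨k, hk⟩ := hK.bddAbove
  exact (N_finite k).subset fun t ht => hk ht

/-- `G t`. -/
def G (t : Node) : ℕ := 3 * N t + 3

/-- The greedy path. -/
def path (m : ℕ) : ℕ → Node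
  | 0 => []
  | 1 => [m]
  | (l + 2) => path m (l + 1) ++ [G (path m (l + 1)) + 1]

lemma path_length (m l : ℕ) : (path m l).length = l := by
  induction l with
  | zero => rfl
  | succ l ih =>
    cases l with
    | zero => rfl
    | succ l => simp [path, ih]

lemma path_take (m : ℕ) {i l : ℕ} (h : i ≤ l) : (path m l).take i = path m i := by
  induction l with
  | zero =>
    have : i = 0 := by omega
    subst this; rfl
  | succ l ih =>
    rcases Nat.lt_or_ge l i with hi | hi
    · have : i = l + 1 := by omega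
      subst this
      rw [List.take_of_length_le]
      rw [path_length]
    · cases l with
      | zero =>
        have : i = 0 := by omega
        subst this; rfl
      | succ l =>
        rw [path, List.take_append_of_le_length (by rw [path_length]; exact hi)]
        exact ih hi

lemma path_get_zero (m : ℕ) {l : ℕ} (h : 0 < (path m l).length) : (path m l)[0] = m := by
  rw [path_length] at h
  have h1 := path_take m (i := 1) (l := l) h
  have h2 : ((path m l).take 1)[0]'(by rw [h1]; simp [path]) = m := by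
    simp only [h1, path]; rfl
  rw [List.getElem_take] at h2
  exact h2

lemma path_get (m : ℕ) {i l : ℕ} (hi : 1 ≤ i) (h : i < (path m l).length) :
    (path m l)[i] = G (path m i) + 1 := by
  have hl : i < l := by rwa [path_length] at h
  have h1 := path_take m (i := i + 1) (l := l) hl
  obtain ⟨j, rfl⟩ : ∃ j, i = j + 1 := ⟨i - 1, by omega⟩
  have hlen : j + 1 < ((path m l).take (j + 1 + 1)).length := by
    rw [h1, path_length]; omega
  have h2 : ((path m l).take (j + 1 + 1))[j + 1]'hlen = G (path m (j + 1)) + 1 := by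
    simp only [h1]
    simp only [path]
    rw [List.getElem_append_right (by rw [path_length])]
    simp [path_length]
  rw [List.getElem_take] at h2
  exact h2

/-- Being on a greedy path. -/
def OnPath (t : Node) : Prop := ∃ m l, t = path m (l + 1)

lemma path_inj {m m' l l' : ℕ} (h : path m (l + 1) = path m' (l' + 1)) : m = m' ∧ l = l' := by
  have h1 : l = l' := by
    have := congrArg List.length h
    rw [path_length, path_length] at this
    omega
  subst h1
  refine ⟨?_, rfl⟩
  have a := path_get_zero m (l := l + 1) (by rw [path_length]; omega)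
  have b := path_get_zero m' (l := l + 1) (by rw [path_length]; omega)
  rw [← a, ← b]
  simp only [h]

/-- The head of a node. -/
def hd (t : Node) : ℕ := t.headI

lemma hd_path (m l : ℕ) : hd (path m (l + 1)) = m := by
  have h := path_get_zero m (l := l + 1) (by rw [path_length]; omega)
  have hne : path m (l + 1) ≠ [] := by
    intro h0
    have := path_length m (l + 1)
    rw [h0] at this
    simp at this
  unfold hd
  cases hp : path m (l + 1) with
  | nil => exact absurd hp hne
  | cons a as =>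
    simp only [hp, List.getElem_cons_zero] at h
    simp [h]

/-- Corrections on greedy paths. -/
noncomputable def eps (φ : I → ℕ → ℕ) (Y : I → Set ℕ) (x : I) (t : Node) : ℕ :=
  open Classical in
  if OnPath t then
    if t.length < φ x (hd t) then 2
    else if t.length = φ x (hd t) then (if hd t ∈ Y x then 2 else 1) else 0
  else 0

lemma eps_le (φ : I → ℕ → ℕ) (Y : I → Set ℕ) (x : I) (t : Node) : eps φ Y x t ≤ 2 := by
  unfold eps; split_ifs <;> omega

lemma onPath_path (m l : ℕ) : OnPath (path m (l + 1)) := ⟨m, l, rfl⟩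

lemma eps_path_lt (φ : I → ℕ → ℕ) (Y : I → Set ℕ) (x : I) (m l : ℕ) (h : l + 1 < φ x m) :
    eps φ Y x (path m (l + 1)) = 2 := by
  rw [eps, if_pos (onPath_path m l), if_pos]
  rw [path_length, hd_path]; exact h

lemma eps_path_eq (φ : I → ℕ → ℕ) (Y : I → Set ℕ) (x : I) (m l : ℕ) (h : l + 1 = φ x m) :
    eps φ Y x (path m (l + 1)) = open Classical in (if m ∈ Y x then 2 else 1) := by
  rw [eps, if_pos (onPath_path m l), if_neg, if_pos]
  · rw [hd_path]
  · rw [path_length, hd_path]; exact h
  · rw [path_length, hd_path]; omega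

lemma eps_path_gt (φ : I → ℕ → ℕ) (Y : I → Set ℕ) (x : I) (m l : ℕ) (h : φ x m < l + 1) :
    eps φ Y x (path m (l + 1)) = 0 := by
  rw [eps, if_pos (onPath_path m l), if_neg, if_neg]
  · rw [path_length, hd_path]; omega
  · rw [path_length, hd_path]; omega

/-- The b-scale. -/
noncomputable def ff (φ : I → ℕ → ℕ) (Y : I → Set ℕ) (z x : I) (t : Node) : ℕ :=
  open Classical in if x < z then G t + eps φ Y x t else φ x (N t)

lemma ff_low (φ : I → ℕ → ℕ) (Y : I → Set ℕ) {z x : I} (h : x < z) (t : Node) :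
    ff φ Y z x t = G t + eps φ Y x t := by rw [ff, if_pos h]

lemma ff_high (φ : I → ℕ → ℕ) (Y : I → Set ℕ) {z x : I} (h : z ≤ x) (t : Node) :
    ff φ Y z x t = φ x (N t) := by rw [ff, if_neg (not_lt.2 h)]

lemma ff_increasing {φ : I → ℕ → ℕ} (hφ : IsScale φ) (Y : I → Set ℕ) (z x : I) :
    Increasing (ff φ Y z x) := by
  rcases lt_or_ge x z with h | h
  · constructor
    · intro s u hu
      rw [ff_low φ Y h, ff_low φ Y h]
      have h1 := eps_le φ Y x s
      have h2 := N_pos hu
      simp only [G, N_append]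
      omega
    · intro s n m hnm
      rw [ff_low φ Y h, ff_low φ Y h]
      have h1 := eps_le φ Y x (s ++ [n])
      simp only [G, N_append]
      simp only [N, List.length_singleton, List.sum_singleton]
      omega
  · constructor
    · intro s u hu
      rw [ff_high φ Y h, ff_high φ Y h]
      apply hφ.mono
      have h2 := N_pos hu
      rw [N_append]; omega
    · intro s n m hnm
      rw [ff_high φ Y h, ff_high φ Y h]
      apply hφ.mono
      rw [N_append, N_append]
      simp only [N, List.length_singleton, List.sum_singleton]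
      omega

lemma ff_leStar {φ : I → ℕ → ℕ} (hφ : IsScale φ) (Y : I → Set ℕ) (z : I) {x y : I} (hxy : x < y) :
    LeStar (ff φ Y z x) (ff φ Y z y) := by
  unfold LeStar
  rcases lt_or_ge y z with hy | hy
  · -- both low
    have hx : x < z := hxy.trans hy
    have hfin := hφ.lt hxy
    have hsub : {s | ¬ ff φ Y z x s ≤ ff φ Y z y s} ⊆
        ⋃ m ∈ {k | ¬ φ x k < φ y k}, (fun l => path m l) '' Set.Iic (φ x m) := by
      intro t ht
      simp only [Set.mem_ofPred_eq, ff_low φ Y hx, ff_low φ Y hy] at ht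
      have hpos : 0 < eps φ Y x t := by omega
      have hon : OnPath t := by
        by_contra hn
        rw [eps, if_neg hn] at hpos
        exact absurd hpos (lt_irrefl _)
      obtain ⟨m, l, rfl⟩ := hon
      have hle : l + 1 ≤ φ x m := by
        by_contra hc
        rw [eps_path_gt φ Y x m l (by omega)] at hpos
        exact absurd hpos (lt_irrefl _)
      simp only [Set.mem_iUnion]
      refine ⟨m, ?_, l + 1, hle, rfl⟩
      simp only [Set.mem_ofPred_eq]
      intro hlt
      have h2 : eps φ Y y (path m (l + 1)) = 2 := eps_path_lt φ Y y m l (by omega)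
      have h3 := eps_le φ Y x (path m (l + 1))
      omega
    exact (hfin.biUnion fun m _ => (Set.finite_Iic _).image _).subset hsub
  · rcases lt_or_ge x z with hx | hx
    · -- low, high
      have : {s | ¬ ff φ Y z x s ≤ ff φ Y z y s} = ∅ := by
        ext t
        simp only [Set.mem_ofPred_eq, ff_low φ Y hx, ff_high φ Y hy, Set.mem_empty_iff_false,
          iff_false, not_not]
        have h1 := eps_le φ Y x t
        have h2 := hφ.ge y (N t)
        simp only [G]
        omega
      rw [this]; exact Set.finite_empty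
    · apply (N_finite_preimage (hφ.lt hxy)).subset
      intro t ht
      simp only [Set.mem_ofPred_eq, ff_high φ Y hx, ff_high φ Y hy] at ht ⊢
      omega

lemma ff_not_leStar {φ : I → ℕ → ℕ} (hφ : IsScale φ) (Y : I → Set ℕ) (z : I) {x y : I}
    (hxy : y < x) : ¬ LeStar (ff φ Y z x) (ff φ Y z y) := by
  unfold LeStar
  rcases lt_or_ge x z with hx | hx
  · have hy : y < z := hxy.trans hx
    have hfin := hφ.lt hxy
    intro hf
    have hinj : Function.Injective (fun m => path m (φ y m + 1)) := by
      intro m m' h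
      exact (path_inj h).1
    have himg := hf.preimage (f := fun m => path m (φ y m + 1)) hinj.injOn
    have hsub : {k | ¬ φ y k < φ x k}ᶜ ⊆
        (fun m => path m (φ y m + 1)) ⁻¹' {s | ¬ ff φ Y z x s ≤ ff φ Y z y s} := by
      intro m hm
      simp only [Set.mem_compl_iff, Set.mem_ofPred_eq, not_not] at hm
      simp only [Set.mem_preimage, Set.mem_ofPred_eq, ff_low φ Y hx, ff_low φ Y hy]
      rw [eps_path_gt φ Y y m (φ y m) (by omega)]
      have : 1 ≤ eps φ Y x (path m (φ y m + 1)) := by
        rcases Nat.lt_or_ge (φ y m + 1) (φ x m) with h | h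
        · rw [eps_path_lt φ Y x m (φ y m) h]; omega
        · rw [eps_path_eq φ Y x m (φ y m) (by omega)]; split_ifs <;> omega
      omega
    have h1 : ({k | ¬ φ y k < φ x k}ᶜ).Finite := himg.subset hsub
    exact Set.infinite_univ (by simpa using hfin.union h1)
  · rcases lt_or_ge y z with hy | hy
    · have : {s | ¬ ff φ Y z x s ≤ ff φ Y z y s} = Set.univ := by
        ext t
        simp only [Set.mem_ofPred_eq, ff_low φ Y hy, ff_high φ Y hx, Set.mem_univ, iff_true]
        have h1 := eps_le φ Y y t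
        have h2 := hφ.ge x (N t)
        simp only [G]
        omega
      rw [this]; exact Set.infinite_univ
    · intro hf
      have h1 := N_finite_preimage (hφ.lt hxy)
      have : (Set.univ : Set Node) ⊆
          {s | ¬ ff φ Y z x s ≤ ff φ Y z y s} ∪ {t | N t ∈ {k | ¬ φ y k < φ x k}} := by
        intro t _
        by_cases h : φ y (N t) < φ x (N t)
        · left
          simp only [Set.mem_ofPred_eq, ff_high φ Y hx, ff_high φ Y hy]
          omega
        · right; exact h
      exact Set.infinite_univ ((hf.union h1).subset this)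

lemma ff_unb {φ : I → ℕ → ℕ} (hφ : IsScale φ) (Y : I → Set ℕ) (z : I) (E : Set Node)
    (hE : E.Infinite) (g : Node → ℕ) :
    ∃ f ∈ Set.range (ff φ Y z), ¬ {s ∈ E | ¬ f s ≤ g s}.Finite := by
  by_contra hc0
  have hc : ∀ f ∈ Set.range (ff φ Y z), {s ∈ E | ¬ f s ≤ g s}.Finite := by
    intro f hf
    by_contra hfin
    exact hc0 ⟨f, hf, hfin⟩
  have htau : ∀ k : ℕ, ∃ t ∈ E, k ≤ N t := by
    intro k
    by_contra hk
    push Not at hk
    exact hE ((N_finite k).subset fun t ht => (hk t ht).le)
  choose τ hτE hτ using htau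
  have hbound : ∀ x, z ≤ x → {k | ¬ φ x k ≤ g (τ k)}.Finite := by
    intro x hx
    have hfin := hc (ff φ Y z x) ⟨x, rfl⟩
    obtain ⟨M, hM⟩ := (hfin.image N).bddAbove
    apply (Set.finite_Iic M).subset
    intro k hk
    simp only [Set.mem_ofPred_eq, not_le] at hk
    have hmem : τ k ∈ {s ∈ E | ¬ ff φ Y z x s ≤ g s} := by
      refine ⟨hτE k, ?_⟩
      rw [ff_high φ Y hx, not_le]
      exact hk.trans_le ((hφ.mono x).monotone (hτ k))
    exact (hτ k).trans (hM ⟨τ k, hmem, rfl⟩)
  obtain ⟨x, hx⟩ := hφ.unb (fun k => g (τ k))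
  rcases le_or_gt z x with hzx | hzx
  · exact hx (hbound x hzx)
  · apply hx
    apply ((hφ.lt hzx).union (hbound z le_rfl)).subset
    intro k hk
    simp only [Set.mem_ofPred_eq, Set.mem_union] at hk ⊢
    omega

lemma ff_isBScale {φ : I → ℕ → ℕ} (hφ : IsScale φ) (Y : I → Set ℕ) (z : I) :
    IsBScale (Set.range (ff φ Y z)) where
  increasing := by
    rintro _ ⟨x, rfl⟩
    exact ff_increasing hφ Y z x
  unbounded := by
    rintro ⟨g, hg⟩
    obtain ⟨f, hf, hf2⟩ := ff_unb hφ Y z Set.univ Set.infinite_univ g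
    apply hf2
    have := hg f hf
    simpa [LeStar] using this
  orderType := by
    refine ⟨ff φ Y z, rfl, fun x y => ⟨fun h => ?_, fun h => ?_⟩⟩
    · rcases h.eq_or_lt with rfl | h
      · simp [LeStar]
      · exact ff_leStar hφ Y z h
    · by_contra hc
      exact ff_not_leStar hφ Y z (not_le.1 hc) h
  root := by
    rintro n _ ⟨x, rfl⟩
    obtain ⟨y, hy, hn⟩ := hφ.root (max x z) n
    refine ⟨ff φ Y z y, ⟨y, rfl⟩, ?_, ?_⟩
    · rcases ((le_max_left x z).trans hy).eq_or_lt with rfl | h
      · simp [LeStar]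
      · exact ff_leStar hφ Y z h
    · rw [ff_high φ Y ((le_max_right x z).trans hy)]
      exact hn

/-- The `m`-th test node. -/
def test (φ : I → ℕ → ℕ) (z : I) (m : ℕ) : Node := path m (φ z m + 1)

lemma test_mem_low {φ : I → ℕ → ℕ} (hφ : IsScale φ) (Y : I → Set ℕ) {z x : I} (hx : x < z) :
    {m | ¬ (test φ z m ∈ U (ff φ Y z x) ↔ m ∈ Y x)}.Finite := by
  apply ((hφ.lt hx).union (Set.finite_singleton (ff φ Y z x []))).subset
  intro m hm
  by_contra hc
  simp only [Set.mem_union, Set.mem_ofPred_eq, Set.mem_singleton_iff, not_or, not_not] at hc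
  obtain ⟨hlt, hm0⟩ := hc
  apply hm
  have hge := hφ.ge x m
  constructor
  · intro hU
    by_contra hY
    obtain ⟨l, hl⟩ : ∃ l, φ x m = l + 1 := ⟨φ x m - 1, by omega⟩
    have hlen : l + 1 < (test φ z m).length := by
      rw [test, path_length]; omega
    apply hU (l + 1) hlen
    have h1 : (test φ z m)[l + 1]'hlen = G (path m (l + 1)) + 1 := path_get m (by omega) hlen
    have h2 : (test φ z m).take (l + 1) = path m (l + 1) := path_take m (by omega)
    rw [h1, h2, ff_low φ Y hx, eps_path_eq φ Y x m l hl.symm, if_neg hY]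
  · intro hY i hi
    rw [test, path_length] at hi
    rcases Nat.eq_zero_or_pos i with rfl | hi0
    · have h1 : (test φ z m)[0]'(by rw [test, path_length]; omega) = m := path_get_zero m _
      rw [h1]
      simpa using hm0
    · obtain ⟨l, rfl⟩ : ∃ l, i = l + 1 := ⟨i - 1, by omega⟩
      have h1 : (test φ z m)[l + 1]'(by rw [test, path_length]; omega)
          = G (path m (l + 1)) + 1 := path_get m (by omega) _
      have h2 : (test φ z m).take (l + 1) = path m (l + 1) := path_take m (by omega)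
      rw [h1, h2, ff_low φ Y hx]
      have h3 : eps φ Y x (path m (l + 1)) ≠ 1 := by
        rcases lt_trichotomy (l + 1) (φ x m) with h | h | h
        · rw [eps_path_lt φ Y x m l h]; omega
        · rw [eps_path_eq φ Y x m l h, if_pos hY]; omega
        · rw [eps_path_gt φ Y x m l h]; omega
      omega

lemma test_mem_high {φ : I → ℕ → ℕ} (hφ : IsScale φ) (Y : I → Set ℕ) {z x : I} (hx : z ≤ x) :
    {m | ¬ test φ z m ∈ U (ff φ Y z x)}.Finite := by
  apply (Set.finite_singleton (ff φ Y z x [])).subset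
  intro m hm
  by_contra hm0
  simp only [Set.mem_singleton_iff] at hm0
  apply hm
  intro i hi
  rw [test, path_length] at hi
  rcases Nat.eq_zero_or_pos i with rfl | hi0
  · have h1 : (test φ z m)[0]'(by rw [test, path_length]; omega) = m := path_get_zero m _
    rw [h1]
    simpa using hm0
  · obtain ⟨l, rfl⟩ : ∃ l, i = l + 1 := ⟨i - 1, by omega⟩
    have h1 : (test φ z m)[l + 1]'(by rw [test, path_length]; omega)
        = G (path m (l + 1)) + 1 := path_get m (by omega) _
    have h2 : (test φ z m).take (l + 1) = path m (l + 1) := path_take m (by omega)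
    rw [h1, h2, ff_high φ Y hx]
    have h3 := hφ.ge x (N (path m (l + 1)))
    simp only [G]
    omega

lemma test_cone {φ : I → ℕ → ℕ} {z : I} {s : Node} (hs : s ≠ []) :
    {m | test φ z m ∈ cone s}.Finite := by
  apply (Set.finite_singleton (hd s)).subset
  rintro m ⟨u, hu⟩
  simp only [Set.mem_singleton_iff]
  have h1 : hd (test φ z m) = m := hd_path m _
  rw [← h1, hu]
  cases s with
  | nil => exact absurd rfl hs
  | cons a as => rfl

/-- Every infinite set of natural numbers splits into two infinite pieces. -/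
lemma exists_split {D : Set ℕ} (hD : D.Infinite) : ∃ D1 ⊆ D, D1.Infinite ∧ (D \ D1).Infinite := by
  let e := hD.natEmbedding D
  refine ⟨Set.range fun n => (e (2 * n)).1, ?_, ?_, ?_⟩
  · rintro _ ⟨n, rfl⟩; exact (e (2 * n)).2
  · apply Set.infinite_range_of_injective
    intro a b hab
    have := e.injective (Subtype.ext hab)
    omega
  · have h1 : (Set.range fun n => (e (2 * n + 1)).1).Infinite := by
      apply Set.infinite_range_of_injective
      intro a b hab
      have := e.injective (Subtype.ext hab)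
      omega
    apply h1.mono
    rintro _ ⟨n, rfl⟩
    refine ⟨(e (2 * n + 1)).2, ?_⟩
    rintro ⟨m, hm⟩
    have := e.injective (Subtype.ext hm)
    omega

lemma pnum_mem : ∃ A : Set (Set ℕ), #A = pnum ∧ (∀ F ⊆ A, F.Finite → (⋂₀ F).Infinite) ∧
    ¬ ∃ D : Set ℕ, D.Infinite ∧ ∀ X ∈ A, (D \ X).Finite := by
  have : pnum ∈ {κ : Cardinal.{0} | ∃ A : Set (Set ℕ), #A = κ ∧
      (∀ F ⊆ A, F.Finite → (⋂₀ F).Infinite) ∧
      ¬ ∃ D : Set ℕ, D.Infinite ∧ ∀ X ∈ A, (D \ X).Finite} := by
    apply csInf_mem
    let W : Ultrafilter ℕ := Filter.hyperfilter ℕ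
    have hW : (W : Filter ℕ) ≤ Filter.cofinite := Filter.hyperfilter_le_cofinite
    refine ⟨_, {X | X ∈ W}, rfl, ?_, ?_⟩
    · intro F hF hfin hfinite
      have h1 : ⋂₀ F ∈ (W : Filter ℕ) :=
        (Filter.sInter_mem (f := (W : Filter ℕ)) hfin).2 (fun X hX => hF hX)
      have h2 : (⋂₀ F)ᶜ ∈ (W : Filter ℕ) := hW hfinite.compl_mem_cofinite
      have h3 := Filter.inter_mem h1 h2
      rw [Set.inter_compl_self] at h3
      exact W.neBot.ne (Filter.empty_mem_iff_bot.1 h3)
    · rintro ⟨D, hD, hD2⟩
      obtain ⟨D1, hD1, hD1i, hD1c⟩ := exists_split hD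
      rcases W.mem_or_compl_mem D1 with h1 | h1
      · exact hD1c (hD2 _ h1)
      · apply hD1i
        apply (hD2 _ h1).subset
        intro a ha
        exact ⟨hD1 ha, fun h => h ha⟩
  exact this

/-- Indexing the family by an initial segment of the index set. -/
lemma exists_index (h : pnum < bnum) (A : Set (Set ℕ)) (hA : #A = pnum) :
    ∃ (z : I) (Y : I → Set ℕ), (∀ x, x < z → Y x ∈ A) ∧ ∀ X ∈ A, ∃ x, x < z ∧ Y x = X := by
  have hlt : pnum.ord < bnum.ord := Cardinal.ord_lt_ord.2 h
  let f := Ordinal.principalSegToType hlt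
  have hcard : #(pnum.ord.ToType) = #A := by rw [Cardinal.mk_ord_toType, hA]
  obtain ⟨e⟩ := Cardinal.eq.1 hcard
  classical
  refine ⟨f.top, fun b => if hb : ∃ a, f a = b then (e hb.choose).1 else Set.univ, ?_, ?_⟩
  · intro x hx
    have hb : ∃ a, f a = x := f.mem_range_of_rel_top hx
    simp only [dif_pos hb]
    exact (e hb.choose).2
  · intro X hX
    refine ⟨f (e.symm ⟨X, hX⟩), f.lt_top _, ?_⟩
    have hb : ∃ a, f a = f (e.symm ⟨X, hX⟩) := ⟨_, rfl⟩
    simp only [dif_pos hb]
    have h1 : hb.choose = e.symm ⟨X, hX⟩ := f.toRelEmbedding.injective hb.choose_spec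
    rw [h1]
    simp

/-- **Main theorem.** If `p < b` then there is a b-scale, unbounded on every infinite set of
nodes, whose Dow space is not Frechet-Urysohn. -/
theorem result (h : pnum < bnum) :
    ∃ B : Set (Node → ℕ), IsBScale B ∧
      (∀ E : Set Node, E.Infinite → ∀ g : Node → ℕ, ∃ f ∈ B, ¬ {s ∈ E | ¬ f s ≤ g s}.Finite) ∧
      ¬ @FrechetUrysohnSpace Node (dow B) := by
  obtain ⟨φ, hφ⟩ := exists_scale
  obtain ⟨A, hA, hfip, hpi⟩ := pnum_mem
  obtain ⟨z, Y, hYA, hAY⟩ := exists_index h A hA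
  refine ⟨Set.range (ff φ Y z), ff_isBScale hφ Y z, fun E hE g => ff_unb hφ Y z E hE g, ?_⟩
  intro hFU
  let _ : TopologicalSpace Node := dow (Set.range (ff φ Y z))
  -- the root is in the closure of the set of test nodes
  have hcl : ([] : Node) ∈ closure (Set.range (test φ z)) := by
    let L : Filter ℕ := Filter.cofinite ⊓ Filter.generate A
    have hNe : L.NeBot := by
      rw [Filter.inf_neBot_iff]
      intro s hs t ht
      obtain ⟨F, hFA, hFfin, hFt⟩ := Filter.mem_generate_iff.1 ht
      have h1 : (⋂₀ F ∩ s).Nonempty := by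
        have h2 : (⋂₀ F \ sᶜ).Infinite := (hfip F hFA hFfin).sdiff (Filter.mem_cofinite.1 hs)
        obtain ⟨a, ha⟩ := h2.nonempty
        exact ⟨a, ha.1, by simpa using ha.2⟩
      obtain ⟨a, ha1, ha2⟩ := h1
      exact ⟨a, ha2, hFt ha1⟩
    have hcof : ∀ s : Set ℕ, sᶜ.Finite → s ∈ L := fun s hs =>
      Filter.mem_inf_of_left (Filter.mem_cofinite.2 hs)
    have hY : ∀ x, x < z → Y x ∈ L := fun x hx =>
      Filter.mem_inf_of_right (Filter.GenerateSets.basic (hYA x hx))
    have htend : Filter.Tendsto (test φ z) L (nhds ([] : Node)) := by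
      refine TopologicalSpace.tendsto_nhds_generateFrom_iff.2 ?_
      rintro V ((⟨s, rfl⟩ | ⟨s, rfl⟩) | ⟨f, ⟨x, rfl⟩, rfl⟩) hV
      · obtain ⟨u, hu⟩ := hV
        have hs : s = [] := by
          cases s with
          | nil => rfl
          | cons a as => simp at hu
        subst hs
        apply hcof
        have : (test φ z ⁻¹' cone [])ᶜ = ∅ := by
          ext m; simp [cone]
        rw [this]; exact Set.finite_empty
      · have hs : s ≠ [] := by
          rintro rfl
          exact hV ⟨[], rfl⟩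
        apply hcof
        apply (test_cone (φ := φ) (z := z) hs).subset
        intro m hm
        simpa using hm
      · rcases lt_or_ge x z with hx | hx
        · have h1 := hcof {m | (test φ z m ∈ U (ff φ Y z x) ↔ m ∈ Y x)}
            ((test_mem_low hφ Y hx).subset fun m hm => hm)
          filter_upwards [h1, hY x hx] with m hm hm2
          exact hm.2 hm2
        · apply hcof
          exact (test_mem_high hφ Y hx).subset fun m hm => hm
    exact mem_closure_of_tendsto htend (Filter.Eventually.of_forall fun m => ⟨m, rfl⟩)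
  -- a sequence of test nodes converging to the root
  obtain ⟨u, hu, hlim⟩ := hFU.closure_subset_seqClosure _ hcl
  choose m hm using hu
  have hopen : ∀ V ∈ ({V | ∃ s, V = cone s} ∪ {V | ∃ s, V = (cone s)ᶜ} ∪
      {V | ∃ f ∈ Set.range (ff φ Y z), V = U f} : Set (Set Node)), [] ∈ V →
      ∀ᶠ n in Filter.atTop, u n ∈ V := by
    intro V hV h0
    exact (TopologicalSpace.tendsto_nhds_generateFrom_iff.1 hlim) V hV h0
  have hne : ∀ k, ∀ᶠ n in Filter.atTop, m n ≠ k := by
    intro k
    have h1 := hopen (cone [k])ᶜ (Or.inl (Or.inr ⟨_, rfl⟩)) (by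
      rintro ⟨v, hv⟩; simp at hv)
    filter_upwards [h1] with n hn hk
    apply hn
    rw [← hm n]
    have h2 : hd (test φ z (m n)) = m n := hd_path _ _
    have h3 : test φ z (m n) ≠ [] := by
      intro h0
      have := path_length (m n) (φ z (m n) + 1)
      rw [test] at h0
      rw [h0] at this
      simp at this
    cases h4 : test φ z (m n) with
    | nil => exact absurd h4 h3
    | cons a as =>
      refine ⟨as, ?_⟩
      rw [h4] at h2
      have : a = m n := h2
      rw [this, hk]
      rfl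
  have hnefin : ∀ Z : Set ℕ, Z.Finite → ∀ᶠ n in Filter.atTop, m n ∉ Z := by
    intro Z hZ
    have := (Filter.eventually_all_finite hZ (l := Filter.atTop)
      (p := fun k n => m n ≠ k)).2 (fun k _ => hne k)
    filter_upwards [this] with n hn hmem
    exact hn _ hmem rfl
  apply hpi
  refine ⟨Set.range m, ?_, ?_⟩
  · intro hfin
    obtain ⟨n, hn⟩ := (hnefin _ hfin).exists
    exact hn ⟨n, rfl⟩
  · intro X hX
    obtain ⟨x, hx, rfl⟩ := hAY X hX
    have h1 := hopen (U (ff φ Y z x)) (Or.inr ⟨_, ⟨x, rfl⟩, rfl⟩) (by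
      intro i hi; simp at hi)
    have h2 := hnefin _ (test_mem_low hφ Y hx)
    obtain ⟨n0, hn0⟩ := Filter.eventually_atTop.1 (h1.and h2)
    apply ((Set.finite_lt_nat n0).image m).subset
    rintro _ ⟨⟨n, rfl⟩, hn⟩
    refine ⟨n, ?_, rfl⟩
    by_contra hc
    have h3 := hn0 n (not_lt.1 hc)
    apply hn
    have h4 := h3.2
    simp only [Set.mem_ofPred_eq, not_not] at h4
    rw [← hm n] at h3
    exact h4.1 h3.1

end Pool.Agent.Results.MP_743798_lc.NonFrechetBelowB
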